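import Mathlib
import Pool.Agent.Helper73.TH.Defs

set_option autoImplicit false

/-!
Project TH (MP_594f4b_nt, Q2), piece TH-3: existence of the point on the curve and comparison
with the cubic.
-/

namespace Pool.Agent.Helper73.TH

theorem curve_golden {ρ s β : ℝ} (h : Curve ρ s β) : 0 < s ^ 2 - s - 1 := by
  obtain ⟨hs1, hs2, hb0, hb1, e1, e2⟩ := h
  have h1 : 0 < (s - 1) * β * (s * β + 1) := by
    have : 0 < s - 1 := by linarith
    have : 0 < s := by linarith
    positivity
  rw [e1] at h1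
  have h2 : 0 < s + 1 := by linarith
  exact (mul_pos_iff_of_pos_left h2).mp h1

theorem curve_rho_one {ρ s β : ℝ} (h : Curve ρ s β) : 1 < ρ := by
  obtain ⟨hs1, hs2, hb0, hb1, e1, e2⟩ := h
  have hs : 0 < s - 1 := by linarith
  have h1 : 0 < (s - 1) * (1 + s) * β ^ 2 := by
    have : 0 < 1 + s := by linarith
    positivity
  have h2 : (s - 1) * (1 + s) * β ^ 2 < s * (1 + s) + (s - 1) * β := by
    have h3 : β ^ 2 ≤ 1 := by nlinarith
    have h4 : (s - 1) * (1 + s) * β ^ 2 ≤ (s - 1) * (1 + s) * 1 := by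
      apply mul_le_mul_of_nonneg_left h3
      have : 0 < 1 + s := by linarith
      positivity
    have h5 : 0 < (s - 1) * β := by positivity
    nlinarith
  have h3 : (ρ - 1) * (s * (1 + s) + (s - 1) * β - (s - 1) * (1 + s) * β ^ 2) =
      (s - 1) * (1 + s) * β ^ 2 := by
    linear_combination e2 * (-1)
  have h4 : 0 < s * (1 + s) + (s - 1) * β - (s - 1) * (1 + s) * β ^ 2 := by linarith
  have h5 : 0 < ρ - 1 := by
    rw [← h3] at h1
    exact (mul_pos_iff_of_pos_right h4).mp h1
  linarith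

theorem curve_beta_lt {ρ s β : ℝ} (h : Curve ρ s β) (h2 : ρ < 7 / 4) : β < 1 := by
  obtain ⟨hs1, hs2, hb0, hb1, e1, e2⟩ := h
  rcases lt_or_eq_of_le hb1 with h | h
  · exact h
  · exfalso
    subst h
    have h3 : (s + 1) * (s * (s - 2)) = 0 := by linear_combination -e1
    have h4 : s = 2 := by
      rcases mul_eq_zero.mp h3 with h | h
      · linarith
      · rcases mul_eq_zero.mp h with h | h
        · linarith
        · linarith
    subst h4
    linarith

theorem curve_end {s β : ℝ} (h : Curve (7 / 4) s β) : s = 2 ∧ β = 1 := by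
  obtain ⟨hs1, hs2, hb0, hb1, e1, e2⟩ := h
  have h1 : 0 ≤ (s - 1) * ((1 - β) * (7 * (s + 1) * (1 + β) - 3)) := by
    apply mul_nonneg (by linarith)
    apply mul_nonneg (by linarith)
    nlinarith
  have h2 : 0 ≤ 2 * ((2 * s + 1) * (2 - s)) := by
    apply mul_nonneg (by norm_num)
    apply mul_nonneg (by linarith) (by linarith)
  have h3 : (s - 1) * ((1 - β) * (7 * (s + 1) * (1 + β) - 3)) + 2 * ((2 * s + 1) * (2 - s)) = 0 := by
    linear_combination -4 * e2
  have h4 : 2 * ((2 * s + 1) * (2 - s)) = 0 := by linarith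
  have h5 : (s - 1) * ((1 - β) * (7 * (s + 1) * (1 + β) - 3)) = 0 := by linarith
  constructor
  · rcases mul_eq_zero.mp h4 with h | h
    · norm_num at h
    · rcases mul_eq_zero.mp h with h | h
      · linarith
      · linarith
  · rcases mul_eq_zero.mp h5 with h | h
    · linarith
    · rcases mul_eq_zero.mp h with h | h
      · linarith
      · nlinarith

/-- every real root of the cubic is smaller than the point of the curve -/
theorem curve_gt_cubic {ρ s β : ℝ} (h : Curve ρ s β) (h2 : ρ < 7 / 4) (x : ℝ)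
    (hx : ρ * x ^ 3 - 2 * (ρ - 1) * x ^ 2 - 2 * ρ * x - 1 = 0) : x < s := by
  have hg := curve_golden h
  have hρ := curve_rho_one h
  have hb := curve_beta_lt h h2
  obtain ⟨hs1, hs2, hb0, hb1, e1, e2⟩ := h
  have hs : 0 < s - 1 := by linarith
  have hs0 : 0 < s := by linarith
  -- the value at `s`
  have hgb : 0 < (s - 1) * β ^ 2 - (s + 2) * (s - 1) * β + (s + 1) := by
    have h3 : (s - 1) * β ^ 2 - (s + 2) * (s - 1) * β + (s + 1) =
        (1 - β) * ((s - 1) * (s + 1 - β)) + (2 - s) * (1 + s) := by ring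
    have h4 : 0 < (1 - β) * ((s - 1) * (s + 1 - β)) := by
      apply mul_pos (by linarith)
      apply mul_pos (by linarith) (by linarith)
    have h5 : 0 ≤ (2 - s) * (1 + s) := mul_nonneg (by linarith) (by linarith)
    linarith
  have hT : 0 < ρ * s ^ 3 - 2 * (ρ - 1) * s ^ 2 - 2 * ρ * s - 1 := by
    have hK : 0 < s * (1 + s) + (s - 1) * β := by positivity
    have h3 : (ρ * s ^ 3 - 2 * (ρ - 1) * s ^ 2 - 2 * ρ * s - 1) * (s * (1 + s) + (s - 1) * β) =
        ρ * (s - 1) * β * s * ((s - 1) * β ^ 2 - (s + 2) * (s - 1) * β + (s + 1)) := by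
      linear_combination (-ρ * (s * (1 + s) + (s - 1) * β)) * e1 + (2 * s ^ 2 - 1) * e2
    have h4 : 0 < ρ * (s - 1) * β * s * ((s - 1) * β ^ 2 - (s + 2) * (s - 1) * β + (s + 1)) := by
      have : 0 < ρ := by linarith
      positivity
    rw [← h3] at h4
    exact (mul_pos_iff_of_pos_right hK).mp h4
  by_contra hc
  have hxs : s ≤ x := not_lt.mp hc
  have h3 : 0 ≤ (x - s) * (ρ * (x ^ 2 + x * s + s ^ 2) - 2 * (ρ - 1) * (x + s) - 2 * ρ) := by
    apply mul_nonneg (by linarith)
    have h4 : 0 ≤ (x - s) * (ρ * (x + 2 * s) - 2 * (ρ - 1)) := by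
      apply mul_nonneg (by linarith)
      nlinarith
    have h5 : 0 ≤ ρ * (3 * s ^ 2 - 4 * s - 2) + 4 * s := by
      have h6 : 1 - s ≤ 3 * s ^ 2 - 4 * s - 2 := by linarith
      have h7 : ρ * (1 - s) ≤ ρ * (3 * s ^ 2 - 4 * s - 2) :=
        mul_le_mul_of_nonneg_left h6 (by linarith)
      nlinarith
    linarith
  linarith

theorem exists_curve (ρ : ℝ) (h1 : 1 < ρ) (h2 : ρ ≤ 7 / 4) : ∃ s β : ℝ, Curve ρ s β := by
  have hg2 : Real.sqrt 5 ^ 2 = 5 := Real.sq_sqrt (by norm_num)
  have hg1 : 1 < Real.sqrt 5 := by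
    rw [Real.lt_sqrt (by norm_num)]; norm_num
  have hg3 : Real.sqrt 5 < 3 := by
    rw [Real.sqrt_lt' (by norm_num)]; norm_num
  set g : ℝ := (1 + Real.sqrt 5) / 2 with hg
  have hgg : g ^ 2 = g + 1 := by rw [hg]; nlinarith
  have hg1' : 1 < g := by rw [hg]; linarith
  have hg2' : g ≤ 2 := by rw [hg]; linarith
  let D : ℝ → ℝ := fun s => 1 + 4 * s * (s + 1) * (s ^ 2 - s - 1) / (s - 1)
  let b : ℝ → ℝ := fun s => (Real.sqrt (D s) - 1) / (2 * s)
  let F : ℝ → ℝ := fun s => (s - 1) * b s * (ρ * (1 + s) * b s - (ρ - 1)) - (ρ - 1) * s * (1 + s)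
  have hD : ContinuousOn D (Set.Icc g 2) := by
    apply ContinuousOn.add continuousOn_const
    apply ContinuousOn.div
    · fun_prop
    · fun_prop
    · intro x hx
      have := hx.1
      have : 0 < x - 1 := by linarith
      exact this.ne'
  have hb : ContinuousOn b (Set.Icc g 2) := by
    apply ContinuousOn.div
    · exact (hD.sqrt).sub continuousOn_const
    · fun_prop
    · intro x hx
      have := hx.1
      have : 0 < 2 * x := by linarith
      exact this.ne'
  have hF : ContinuousOn F (Set.Icc g 2) := by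
    apply ContinuousOn.sub
    · apply ContinuousOn.mul
      · exact ContinuousOn.mul (by fun_prop) hb
      · exact (ContinuousOn.mul (by fun_prop) hb).sub continuousOn_const
    · fun_prop
  have hbg : b g = 0 := by
    have : D g = 1 := by
      have : g ^ 2 - g - 1 = 0 := by linarith
      simp only [D, this]; simp
    simp only [b, this]; simp
  have hb2 : b 2 = 1 := by
    have h5 : D 2 = 5 ^ 2 := by simp only [D]; norm_num
    have : Real.sqrt (D 2) = 5 := by rw [h5]; exact Real.sqrt_sq (by norm_num)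
    simp only [b, this]; norm_num
  have hFg : F g ≤ 0 := by
    simp only [F, hbg]
    have : 0 ≤ (ρ - 1) * g * (1 + g) := by
      apply mul_nonneg (mul_nonneg (by linarith) (by linarith)) (by linarith)
    linarith
  have hF2 : 0 ≤ F 2 := by
    simp only [F, hb2]
    linarith
  obtain ⟨s, hsI, hs0⟩ := intermediate_value_Icc hg2' hF ⟨hFg, hF2⟩
  have hs1 : 1 < s := lt_of_lt_of_le hg1' hsI.1
  have hs2 : s ≤ 2 := hsI.2
  have hsg : 0 ≤ s ^ 2 - s - 1 := by
    have := hsI.1
    nlinarith
  have hDs : 1 ≤ D s := by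
    simp only [D]
    have : 0 ≤ 4 * s * (s + 1) * (s ^ 2 - s - 1) / (s - 1) := by
      apply div_nonneg _ (by linarith)
      apply mul_nonneg _ hsg
      nlinarith
    linarith
  have hq : Real.sqrt (D s) ^ 2 = D s := Real.sq_sqrt (by linarith)
  have hb0 : 0 ≤ b s := by
    simp only [b]
    apply div_nonneg _ (by linarith)
    have : 1 ≤ Real.sqrt (D s) := by
      rw [show (1 : ℝ) = Real.sqrt 1 by simp]
      exact Real.sqrt_le_sqrt hDs
    linarith
  have hbs : 2 * s * b s + 1 = Real.sqrt (D s) := by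
    simp only [b]
    have : s ≠ 0 := by linarith
    field_simp
    ring
  have e1 : (s - 1) * b s * (s * b s + 1) = (s + 1) * (s ^ 2 - s - 1) := by
    have h3 : (2 * s * b s + 1) ^ 2 = D s := by rw [hbs, hq]
    have h4 : (s - 1) * D s = (s - 1) + 4 * s * (s + 1) * (s ^ 2 - s - 1) := by
      have : s - 1 ≠ 0 := by linarith
      simp only [D]
      field_simp
    have h5 : (4 * s) * ((s - 1) * b s * (s * b s + 1)) = (4 * s) * ((s + 1) * (s ^ 2 - s - 1)) := by
      linear_combination (s - 1) * h3 + h4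
    have h6 : (4 * s) ≠ 0 := by linarith
    exact mul_left_cancel₀ h6 h5
  have e2 : (s - 1) * b s * (ρ * (1 + s) * b s - (ρ - 1)) = (ρ - 1) * s * (1 + s) := by
    have : F s = 0 := hs0
    simp only [F] at this
    linarith
  have hb0' : 0 < b s := by
    rcases lt_or_eq_of_le hb0 with h | h
    · exact h
    · exfalso
      rw [← h] at e2
      have : 0 < (ρ - 1) * s * (1 + s) := by
        apply mul_pos (mul_pos (by linarith) (by linarith)) (by linarith)
      linarith
  have hb1 : b s ≤ 1 := by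
    by_contra hc
    have hc' : 1 < b s := not_le.mp hc
    have h3 : (s - 1) * 1 * (s * 1 + 1) < (s - 1) * b s * (s * b s + 1) := by
      have h4 : (s - 1) * 1 < (s - 1) * b s := mul_lt_mul_of_pos_left hc' (by linarith)
      have h5 : s * 1 + 1 < s * b s + 1 := by nlinarith
      exact mul_lt_mul'' h4 h5 (by linarith) (by linarith)
    rw [e1] at h3
    nlinarith
  exact ⟨s, b s, hs1, hs2, hb0', hb1, e1, e2⟩

end Pool.Agent.Helper73.TH
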